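import Pool.Agent.H891R2.TR.Fin
import Pool.Agent.H832R3.VJ.Fin

set_option autoImplicit false

/-! Virtualisation of crossings. -/

namespace Pool.Agent.H891R2.VR

open Finset LaurentPolynomial Pool.Agent.H891R2.Jones Pool.Agent.H891R2.MT Pool.Agent.H891R2.SI
  Pool.Agent.H832R3.VJ Pool.Agent.H891R2.TR T4b

/-- The virtualisation of a crossing: the two strands cross virtually just before and just after
the crossing, and over- and under-strand are exchanged.  The four marked points are seen in the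
opposite cyclic order, the over-strand now joins `a` and `c`, the under-strand joins `b` and `d`
(with the same directions and the same sign). -/
def virtualise {P : Type} (x : Crossing P) : Crossing P :=
  ⟨x.b, x.a, x.d, x.c, x.overFwd, x.underFwd⟩

/-- one crossing is virtualised -/
inductive Virt : Dia → Dia → Prop
  | mk {P : Type} (hP : Finite P) (D : Diagram P) (x : Crossing P) :
      Virt ⟨P, hP, add D [] [x]⟩ ⟨P, hP, add D [] [virtualise x]⟩

/-- one generalised Reidemeister move or virtualisation between link diagrams -/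
def Step (X Y : Dia) : Prop := X.IsLink ∧ Y.IsLink ∧ (Move X Y ∨ Virt X Y)

/-- two link diagrams are related by a finite sequence of generalised Reidemeister moves,
virtualisations and their inverses -/
def Related : Dia → Dia → Prop := Relation.EqvGen Step

theorem virt_inv {P : Type} (A : ℂ) (N : ℕ) (D : Diagram P) (x : Crossing P) (col : P → Fin N) :
    VV A (add D [] [x]) col = VV A (add D [] [virtualise x]) col := by
  rw [V2.VV_add, V2.VV_add]
  congr 1
  simp only [VV, List.map_nil, List.prod_nil, List.map_cons, List.prod_cons, one_mul, mul_one]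
  have h1 : (virtualise x).sign = x.sign := by
    obtain ⟨a, b, c, d, f, g⟩ := x
    cases f <;> cases g <;> rfl
  have h2 : crossW A col (virtualise x) = crossW A col x := by
    simp only [crossW, virtualise]
    rw [ind_congr (p := col x.b = col x.a ∧ col x.d = col x.c) 
        (q := col x.a = col x.b ∧ col x.c = col x.d) 
        ⟨fun h => ⟨h.1.symm, h.2.symm⟩, fun h => ⟨h.1.symm, h.2.symm⟩⟩,
      ind_congr (p := col x.a = col x.d ∧ col x.c = col x.b) 
        (q := col x.b = col x.c ∧ col x.d = col x.a) 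
        ⟨fun h => ⟨h.2.symm, h.1.symm⟩, fun h => ⟨h.2.symm, h.1.symm⟩⟩]
  rw [nW, nW, h1, h2]

theorem fPoly_virt (X Y : Dia) (hX : X.IsLink) (h : Virt X Y) : X.D.fPoly = Y.D.fPoly := by
  classical
  have nX := hX.1
  cases h with
  | @mk P hP D x =>
    have : Fintype P := Fintype.ofFinite P
    have : Nonempty P := nX
    exact V5.fPoly_of_sum _ _ fun N hN => Finset.sum_congr rfl fun col _ =>
      virt_inv _ N D x col

theorem fPoly_related (X Y : Dia) (h : Related X Y) : X.D.fPoly = Y.D.fPoly := by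
  induction h with
  | rel X Y h => 
    rcases h.2.2 with h1 | h1
    · exact fPoly_move X Y h.1 h.2.1 h1
    · exact fPoly_virt X Y h.1 h1
  | refl X => rfl
  | symm X Y _ ih => exact ih.symm
  | trans X Y Z _ _ ih1 ih2 => exact ih1.trans ih2

theorem complete_of_eq {k k' K : ℕ} (hk0 : 0 < k) (hk0' : 0 < k') (hk : k ≤ K) (hk' : k' ≤ K)
    (Γ : Ribbon k) (Γ' : Ribbon k') (hΓ : Γ.Planar) (hΓ' : Γ'.Planar)
    (h3 : ThreeEdgeConnected Γ) (h3' : ThreeEdgeConnected Γ') (n : Fin k → ℤ) (n' : Fin k' → ℤ)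
    (hn : ∀ S S' : Finset (Fin k), S ≠ S' → 8 * K + 8 < |∑ e ∈ S, n e - ∑ e ∈ S', n e|)
    (hn' : ∀ S S' : Finset (Fin k'), S ≠ S' → 8 * K + 8 < |∑ e ∈ S, n' e - ∑ e ∈ S', n' e|)
    (D : Diagram (Ribbon.Pt n)) (D' : Diagram (Ribbon.Pt n')) (hD : Orients D (Γ.link n))
    (hD' : Orients D' (Γ'.link n'))
    (heq : D.fPoly = D'.fPoly) :
    ∃ σ : Fin k ≃ Fin k', (∀ e, n e = n' (σ e)) ∧
      ∀ S, Γ.Bridgeless S ↔ Γ'.Bridgeless (S.map σ.toEmbedding) := by
  obtain ⟨ε, m, hε, hf⟩ := fPoly_orients hk0 Γ n D hD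
  obtain ⟨ε', m', hε', hf'⟩ := fPoly_orients hk0' Γ' n' D' hD'
  have hv := FinL.verts_le Γ hΓ
  have hv' := FinL.verts_le Γ' hΓ'
  have hC : ∀ x : ℤ, x = 1 ∨ x = -1 → (C x * C x : ℤ[T;T⁻¹]) = 1 := by
    rintro x (rfl | rfl)
    · rw [← map_mul]; norm_num
    · rw [← map_mul]; norm_num
  have hb : (Γ.link n).std.bracket = C (ε * ε') * T (m' - m) * (Γ'.link n').std.bracket := by
    have h1 : C ε * T m * (Γ.link n).std.bracket = C ε' * T m' * (Γ'.link n').std.bracket := by
      rw [← hf, ← hf', heq]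
    have h2 : (T m * T (-m) : ℤ[T;T⁻¹]) = 1 := by
      rw [← T_add, add_neg_cancel, T_zero]
    have h3 := hC ε hε
    calc (Γ.link n).std.bracket = C ε * T (-m) * (C ε * T m * (Γ.link n).std.bracket) := by
          have : C ε * T (-m) * (C ε * T m * (Γ.link n).std.bracket) = 
            (C ε * C ε) * (T m * T (-m)) * (Γ.link n).std.bracket := by ring
          rw [this, h3, h2]
          ring
      _ = C ε * T (-m) * (C ε' * T m' * (Γ'.link n').std.bracket) := by rw [h1]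
      _ = _ := by
          rw [map_mul, sub_eq_add_neg, T_add]
          ring
  exact bracket_determines hk0 hk0' hk hk' Γ Γ' hΓ hΓ' h3 h3' n n' hn hn' (ε * ε') (m' - m)
    (by rcases hε with rfl | rfl <;> rcases hε' with rfl | rfl <;> norm_num) hb

theorem twist_of_eq (K C : ℕ) {k k' : ℕ} (hk0 : 0 < k) (hk0' : 0 < k') (hk : k ≤ K) (hk' : k' ≤ K)
    (O : Sites k) (O' : Sites k') (hO : O.Connected) (hO' : O'.Connected) 
    (hC : O.crossings.length ≤ C) (hC' : O'.crossings.length ≤ C) 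
    (hdet : det O.cut ≠ 0) (hdet' : det O'.cut ≠ 0) (w : Fin k → ℤ) (w' : Fin k' → ℤ) 
    (hw : Generic ((3 * K + 1) * (12 * (K + C))) w) (hw' : Generic ((3 * K + 1) * (12 * (K + C))) w')
    (D : Diagram (O.P ⊕ Ribbon.Pt w)) (D' : Diagram (O'.P ⊕ Ribbon.Pt w')) 
    (hD : Orients D (O.fill w)) (hD' : Orients D' (O'.fill w')) (hc : D.IsClosed) 
    (hc' : D'.IsClosed) 
    (hf : D.fPoly = D'.fPoly) :
    ∃ σ : Fin k ≃ Fin k', ∀ e, |w e - w' (σ e)| ≤ 12 * (K + C) := by
  classical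
  have hkZ : (k : ℤ) ≤ K := by exact_mod_cast hk
  have hkZ' : (k' : ℤ) ≤ K := by exact_mod_cast hk'
  have hCZ : (O.crossings.length : ℤ) ≤ C := by exact_mod_cast hC
  have hCZ' : (O'.crossings.length : ℤ) ≤ C := by exact_mod_cast hC'
  have hsum : ∑ R, clu O w D.writhe k' R = ∑ R, clu O' w' D'.writhe k R := by
    rw [sum_clu hk0 O w D hD k', sum_clu hk0' O' w' D' hD' k, hf, add_comm k k']
  have hS : ∀ R, SIn (clu O w D.writhe k' R) 
      ((-3 * D.writhe + ∑ e, w e - 4 * nS w R) - (6 * K + 3 * C : ℤ)) 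
      ((-3 * D.writhe + ∑ e, w e - 4 * nS w R) + (6 * K + 3 * C : ℤ)) := fun R =>
    (clu_SIn O hO w D.writhe k' R).mono (by linarith) (by linarith)
  have hS' : ∀ R, SIn (clu O' w' D'.writhe k R) 
      ((-3 * D'.writhe + ∑ e, w' e - 4 * nS w' R) - (6 * K + 3 * C : ℤ)) 
      ((-3 * D'.writhe + ∑ e, w' e - 4 * nS w' R) + (6 * K + 3 * C : ℤ)) := fun R =>
    (clu_SIn O' hO' w' D'.writhe k R).mono (by linarith) (by linarith)
  have c1 := clusters (6 * K + 3 * C : ℤ) _ _ _ _ hS (fun R => clu_ne O hdet w D.writhe k' R) hS' 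
    (fun R R' h => sep K C w hw D.writhe R R' h) hsum
  have c2 := clusters (6 * K + 3 * C : ℤ) _ _ _ _ hS' (fun R => clu_ne O' hdet' w' D'.writhe k R) hS 
    (fun R R' h => sep K C w' hw' D'.writhe R R' h) hsum.symm
  obtain ⟨τ, hτ, hW⟩ := writhe_fill O w D hD hc
  obtain ⟨τ', hτ', hW'⟩ := writhe_fill O' w' D' hD' hc'
  have key : ∀ (R : Finset (Fin k)) (R' : Finset (Fin k')), 
      |(-3 * D.writhe + ∑ e, w e - 4 * nS w R) - (-3 * D'.writhe + ∑ e, w' e - 4 * nS w' R')| ≤ 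
        2 * (6 * K + 3 * C : ℤ) → 
      |(∑ e, (1 - 3 * τ e) * w e - 4 * ∑ e ∈ R, w e) - 
        (∑ e, (1 - 3 * τ' e) * w' e - 4 * ∑ e ∈ R', w' e)| ≤ 12 * (K + C) := by
    intro R R' h
    have e1 : ∑ e, (1 - 3 * τ e) * w e = ∑ e, w e - 3 * ∑ e, τ e * w e := by
      rw [Finset.mul_sum, ← Finset.sum_sub_distrib]
      exact Finset.sum_congr rfl fun e _ => by ring
    have e2 : ∑ e, (1 - 3 * τ' e) * w' e = ∑ e, w' e - 3 * ∑ e, τ' e * w' e := by
      rw [Finset.mul_sum, ← Finset.sum_sub_distrib]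
      exact Finset.sum_congr rfl fun e _ => by ring
    rw [e1, e2]
    have f1 : ∑ e ∈ R, w e = nS w R := rfl
    have f2 : ∑ e ∈ R', w' e = nS w' R' := rfl
    rw [f1, f2]
    rw [abs_le] at h hW hW' ⊢
    constructor <;> linarith [h.1, h.2, hW.1, hW.2, hW'.1, hW'.2]
  have h1 : ∀ R : Finset (Fin k), ∃ R' : Finset (Fin k'), 
      |(∑ e, (1 - 3 * τ e) * w e - 4 * ∑ e ∈ R, w e) - 
        (∑ e, (1 - 3 * τ' e) * w' e - 4 * ∑ e ∈ R', w' e)| ≤ 12 * (K + C) := by
    intro R
    obtain ⟨R', hR'⟩ := c1 R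
    exact ⟨R', key R R' hR'⟩
  have h2 : ∀ R' : Finset (Fin k'), ∃ R : Finset (Fin k), 
      |(∑ e, (1 - 3 * τ e) * w e - 4 * ∑ e ∈ R, w e) - 
        (∑ e, (1 - 3 * τ' e) * w' e - 4 * ∑ e ∈ R', w' e)| ≤ 12 * (K + C) := by
    intro R'
    obtain ⟨R, hR⟩ := c2 R'
    refine ⟨R, key R R' ?_⟩
    rw [abs_sub_comm]
    exact hR
  exact decode (12 * (K + C)) (by positivity) K hk hk' w w' τ τ' hτ hτ' hw hw' h1 h2

end Pool.Agent.H891R2.VR
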